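import Pool.Agent.H8.BV.Targets

/-!
Row NRD: the norm of a polynomial and its degree
-/

set_option autoImplicit false

open MvPolynomial
open Pool.Agent.H12.ZD (pmap)
open Pool.Agent.H18.HIT Pool.Agent.H18.HX Pool.Agent.H18.VZ
open Pool.Agent.H8.BIG (KF line)
open Pool.Agent.H8.BV

namespace Pool.Agent.H86.BV

section td

variable {N : ℕ} {k : Type} [Field k]

theorem fse_up (q : Po N k) : finSuccEquiv k N (up q) = Polynomial.C q := by
  unfold up
  induction q using MvPolynomial.induction_on with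
  | C a => rw [rename_C, finSuccEquiv_apply, eval₂Hom_C]; rfl
  | add p q hp hq => rw [map_add, map_add, hp, hq, Polynomial.C_add]
  | mul_X p i hp => rw [map_mul, map_mul, hp, rename_X, finSuccEquiv_X_succ, Polynomial.C_mul]

theorem natDeg_of {P : Po (N + 1) k} {r : ℕ} (h : P.IsHomogeneous r) (hm : Mny P) :
    (finSuccEquiv k N P).natDegree = r := by
  have h1 : (finSuccEquiv k N P).coeff (finSuccEquiv k N P).natDegree = 1 := hm
  have h2 : coeff (Finsupp.cons (finSuccEquiv k N P).natDegree (0 : Fin N →₀ ℕ)) P ≠ 0 := by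
    rw [← finSuccEquiv_coeff_coeff, h1, coeff_zero_one]
    exact one_ne_zero
  have h3 := h h2
  rw [← h3]
  rw [Finsupp.weight_apply, Finsupp.sum_fintype _ _ (by simp), Fin.sum_univ_succ]
  simp

/-- the total degree of a polynomial over `Po N k` -/
noncomputable def td (c : Polynomial (Po N k)) : ℕ := ((finSuccEquiv k N).symm c).totalDegree

theorem td_mul (c e : Polynomial (Po N k)) : td (c * e) ≤ td c + td e := by
  unfold td
  rw [map_mul]
  exact totalDegree_mul _ _

theorem td_sub (c e : Polynomial (Po N k)) : td (c - e) ≤ max (td c) (td e) := by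
  unfold td
  rw [map_sub]
  exact totalDegree_sub _ _

theorem symm_C (a : Po N k) : (finSuccEquiv k N).symm (Polynomial.C a) = up a := by
  rw [AlgEquiv.symm_apply_eq]
  exact (fse_up a).symm

theorem symm_X : (finSuccEquiv k N).symm Polynomial.X = X 0 := by
  rw [AlgEquiv.symm_apply_eq, finSuccEquiv_X_zero]

theorem td_C (a : Po N k) : td (Polynomial.C a) ≤ a.totalDegree := by
  unfold td
  rw [symm_C]
  exact totalDegree_rename_le _ _

theorem td_Xpow (j : ℕ) : td ((Polynomial.X : Polynomial (Po N k)) ^ j) ≤ j := by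
  unfold td
  rw [map_pow, symm_X, totalDegree_X_pow]

theorem td_coeff (c : Polynomial (Po N k)) (i : ℕ) (h : c.coeff i ≠ 0) :
    (c.coeff i).totalDegree + i ≤ td c := by
  have h1 := totalDegree_coeff_finSuccEquiv_add_le ((finSuccEquiv k N).symm c) i (by
    rw [AlgEquiv.apply_symm_apply]; exact h)
  rw [AlgEquiv.apply_symm_apply] at h1
  exact h1

theorem td_mod {p : Polynomial (Po N k)} (hp : p.Monic) (ht : td p ≤ p.natDegree)
    (c : Polynomial (Po N k)) : td (c %ₘ p) ≤ td c := by
  refine Polynomial.degree_lt_wf.induction (C := fun c => td (c %ₘ p) ≤ td c) c ?_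
  intro c ih
  by_cases h1 : c.degree < p.degree
  · rw [(Polynomial.modByMonic_eq_self_iff hp).2 h1]
  · have h2 : p.degree ≤ c.degree := not_lt.1 h1
    have hc : c ≠ 0 := by
      rintro rfl
      rw [Polynomial.degree_zero, le_bot_iff, Polynomial.degree_eq_bot] at h2
      exact hp.ne_zero h2
    have hw := Polynomial.div_wf_lemma ⟨h2, hc⟩ hp
    obtain ⟨e, he⟩ : ∃ e, e = Polynomial.C c.leadingCoeff *
      Polynomial.X ^ (c.natDegree - p.natDegree) := ⟨_, rfl⟩
    rw [← he] at hw
    have h3 := ih _ hw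
    have h4 : (c - p * e) %ₘ p = c %ₘ p := by
      rw [Polynomial.sub_modByMonic, (Polynomial.modByMonic_eq_zero_iff_dvd hp).2
        (dvd_mul_right p e), sub_zero]
    rw [h4] at h3
    refine h3.trans ((td_sub _ _).trans (max_le le_rfl ?_))
    have h5 : td e ≤ c.leadingCoeff.totalDegree + (c.natDegree - p.natDegree) := by
      rw [he]
      exact (td_mul _ _).trans (add_le_add (td_C _) (td_Xpow _))
    have h6 : (c.coeff c.natDegree).totalDegree + c.natDegree ≤ td c :=
      td_coeff c c.natDegree (by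
        rw [Polynomial.coeff_natDegree]; exact Polynomial.leadingCoeff_ne_zero.2 hc)
    rw [Polynomial.coeff_natDegree] at h6
    have h7 := Polynomial.natDegree_le_natDegree h2
    have h8 := td_mul p e
    omega

theorem det_deg {r μ : ℕ} (M : Matrix (Fin r) (Fin r) (Po N k))
    (h : ∀ i j, M i j ≠ 0 → (M i j).totalDegree + (i : ℕ) ≤ μ + (j : ℕ)) :
    M.det.totalDegree ≤ r * μ := by
  rw [← mem_restrictTotalDegree, Matrix.det_apply]
  refine Submodule.sum_mem _ fun σ _ => ?_
  have h1 : ∏ i, M (σ i) i ∈ restrictTotalDegree (Fin N) k (r * μ) := by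
    by_cases h0 : ∏ i, M (σ i) i = 0
    · rw [h0]
      exact Submodule.zero_mem _
    · rw [mem_restrictTotalDegree]
      refine (totalDegree_finsetProd _ _).trans ?_
      have h0' := Finset.prod_ne_zero_iff.1 h0
      have h2 : ∑ i, ((M (σ i) i).totalDegree + ((σ i : Fin r) : ℕ)) ≤
          ∑ i : Fin r, (μ + (i : ℕ)) :=
        Finset.sum_le_sum fun i hi => h _ _ (h0' i hi)
      rw [Finset.sum_add_distrib, Finset.sum_add_distrib,
        Equiv.sum_comp σ (fun i : Fin r => (i : ℕ)), Finset.sum_const, Finset.card_univ,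
        Fintype.card_fin, smul_eq_mul] at h2
      omega
  rcases Int.units_eq_one_or (Equiv.Perm.sign σ) with h2 | h2
  · rw [h2, one_smul]
    exact h1
  · rw [h2, Units.neg_smul, one_smul]
    exact Submodule.neg_mem _ h1

end td

theorem pf_NRD : T_NRD := by
  intro N r μ k _ P Q hP hPQ hQ
  obtain ⟨p, hpd⟩ : ∃ p : Polynomial (Po N k), p = finSuccEquiv k N P := ⟨_, rfl⟩
  obtain ⟨q, hqd⟩ : ∃ q : Polynomial (Po N k), q = finSuccEquiv k N Q := ⟨_, rfl⟩
  have hmon : p.Monic := by rw [hpd]; exact hP.mon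
  have hdeg : p.natDegree = r := by rw [hpd]; exact natDeg_of hP.hom hP.mon
  have hirr : Irreducible p := by
    rw [hpd]
    exact (MulEquiv.irreducible_iff (finSuccEquiv k N)).2 hP.irr
  have hnd : ¬ p ∣ q := by
    rintro ⟨w, hw⟩
    apply hPQ
    refine ⟨(finSuccEquiv k N).symm w, (finSuccEquiv k N).injective ?_⟩
    rw [map_mul, AlgEquiv.apply_symm_apply, ← hpd, ← hqd]
    exact hw
  have hprime : Prime p := hirr.prime
  have htp : td p ≤ r := by
    unfold td
    rw [hpd, AlgEquiv.symm_apply_apply]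
    exact hP.hom.totalDegree_le
  have htq : td q ≤ μ := by
    unfold td
    rw [hqd, AlgEquiv.symm_apply_apply]
    exact hQ
  have hr : 0 < r := by
    rcases Nat.eq_zero_or_pos r with h0 | h0
    · exfalso
      rw [h0] at hdeg
      have h1 := Polynomial.eq_one_of_monic_natDegree_zero hmon hdeg
      exact hirr.not_isUnit (by rw [h1]; exact isUnit_one)
    · exact h0
  -- the matrix
  obtain ⟨M, hM⟩ : ∃ M : Matrix (Fin r) (Fin r) (Po N k),
    M = Matrix.of fun (i j : Fin r) => ((q * Polynomial.X ^ (j : ℕ)) %ₘ p).coeff i := ⟨_, rfl⟩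
  have hMij : ∀ i j, M i j = ((q * Polynomial.X ^ (j : ℕ)) %ₘ p).coeff i := by
    intro i j
    rw [hM]
    rfl
  have hMd : ∀ i j, M i j ≠ 0 → (M i j).totalDegree + (i : ℕ) ≤ μ + (j : ℕ) := by
    intro i j h
    rw [hMij] at h ⊢
    refine (td_coeff _ _ h).trans ((td_mod hmon (by rw [hdeg]; exact htp) _).trans ?_)
    exact (td_mul _ _).trans (add_le_add htq (td_Xpow _))
  have hcol : ∀ j : Fin r, q * Polynomial.X ^ (j : ℕ) =
      p * ((q * Polynomial.X ^ (j : ℕ)) /ₘ p) +
        ∑ i : Fin r, Polynomial.C (M i j) * Polynomial.X ^ (i : ℕ) := by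
    intro j
    have h1 := Polynomial.modByMonic_add_div (q * Polynomial.X ^ (j : ℕ)) p
    have h2 : (q * Polynomial.X ^ (j : ℕ)) %ₘ p =
        ∑ i : Fin r, Polynomial.C (M i j) * Polynomial.X ^ (i : ℕ) := by
      have h3 := Polynomial.natDegree_modByMonic_lt (q * Polynomial.X ^ (j : ℕ)) hmon
        (fun h4 => hirr.not_isUnit (by rw [h4]; exact isUnit_one))
      rw [hdeg] at h3
      rw [Polynomial.as_sum_range' _ r h3, Finset.sum_range]
      refine Finset.sum_congr rfl fun i _ => ?_
      rw [hMij, Polynomial.C_mul_X_pow_eq_monomial]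
    rw [← h2]
    linear_combination -h1
  have hvec : ∀ v : Fin r → Po N k,
      q * ∑ j : Fin r, Polynomial.C (v j) * Polynomial.X ^ (j : ℕ) =
        p * (∑ j : Fin r, Polynomial.C (v j) * ((q * Polynomial.X ^ (j : ℕ)) /ₘ p)) +
        ∑ i : Fin r, Polynomial.C ((M.mulVec v) i) * Polynomial.X ^ (i : ℕ) := by
    intro v
    have h1 : q * ∑ j : Fin r, Polynomial.C (v j) * Polynomial.X ^ (j : ℕ) =
        ∑ j : Fin r, Polynomial.C (v j) * (q * Polynomial.X ^ (j : ℕ)) := by
      rw [Finset.mul_sum]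
      refine Finset.sum_congr rfl fun j _ => ?_
      ring
    have h2 : ∑ i : Fin r, Polynomial.C ((M.mulVec v) i) * Polynomial.X ^ (i : ℕ) =
        ∑ j : Fin r, Polynomial.C (v j) *
          ∑ i : Fin r, Polynomial.C (M i j) * Polynomial.X ^ (i : ℕ) := by
      simp_rw [Finset.mul_sum]
      rw [Finset.sum_comm]
      refine Finset.sum_congr rfl fun i _ => ?_
      rw [Matrix.mulVec, dotProduct, map_sum, Finset.sum_mul]
      refine Finset.sum_congr rfl fun j _ => ?_
      rw [map_mul]
      ring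
    rw [h1, h2, Finset.mul_sum, ← Finset.sum_add_distrib]
    refine Finset.sum_congr rfl fun j _ => ?_
    linear_combination Polynomial.C (v j) * hcol j
  refine ⟨M.det, ?_⟩
  -- the combination
  obtain ⟨v, hv⟩ : ∃ v : Fin r → Po N k, v = fun j => M.adjugate j ⟨0, hr⟩ := ⟨_, rfl⟩
  have hMv : ∀ i, (M.mulVec v) i = if i = ⟨0, hr⟩ then M.det else 0 := by
    intro i
    have h1 := congrFun (congrFun (Matrix.mul_adjugate M) i) ⟨0, hr⟩
    rw [Matrix.mul_apply, Matrix.smul_apply, Matrix.one_apply] at h1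
    rw [Matrix.mulVec, dotProduct, hv, h1]
    split_ifs <;> simp
  have hsum : ∑ i : Fin r, Polynomial.C ((M.mulVec v) i) * Polynomial.X ^ (i : ℕ) =
      Polynomial.C M.det := by
    rw [Finset.sum_eq_single ⟨0, hr⟩]
    · rw [hMv, if_pos rfl]
      simp
    · intro i _ hi
      rw [hMv, if_neg hi]
      simp
    · intro h
      exact absurd (Finset.mem_univ _) h
  have hkey := hvec v
  rw [hsum] at hkey
  refine ⟨(finSuccEquiv k N).symm
    (-(∑ j : Fin r, Polynomial.C (v j) * ((q * Polynomial.X ^ (j : ℕ)) /ₘ p))),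
    (finSuccEquiv k N).symm (∑ j : Fin r, Polynomial.C (v j) * Polynomial.X ^ (j : ℕ)),
    ?_, det_deg M hMd, ?_⟩
  · intro h0
    obtain ⟨w, hw, hMw⟩ := Matrix.exists_mulVec_eq_zero_iff.2 h0
    have h1 := hvec w
    rw [hMw] at h1
    simp only [Pi.zero_apply, map_zero, zero_mul, Finset.sum_const_zero, add_zero] at h1
    have h2 : p ∣ q * ∑ j : Fin r, Polynomial.C (w j) * Polynomial.X ^ (j : ℕ) := ⟨_, h1⟩
    rcases hprime.dvd_or_dvd h2 with h3 | h3
    · exact hnd h3
    · obtain ⟨W, hW⟩ : ∃ W : Polynomial (Po N k),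
        W = ∑ j : Fin r, Polynomial.C (w j) * Polynomial.X ^ (j : ℕ) := ⟨_, rfl⟩
      rw [← hW] at h3
      have hWc : ∀ i : Fin r, W.coeff i = w i := by
        intro i
        rw [hW, Polynomial.finsetSum_coeff, Finset.sum_eq_single i]
        · simp
        · intro j _ hj
          rw [Polynomial.coeff_C_mul, Polynomial.coeff_X_pow, if_neg, mul_zero]
          intro h4
          exact hj (Fin.ext h4.symm)
        · intro h
          exact absurd (Finset.mem_univ _) h
      have hW0 : W ≠ 0 := by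
        intro h4
        apply hw
        funext i
        rw [← hWc i, h4]
        simp
      refine hmon.not_dvd_of_degree_lt hW0 ?_ h3
      rw [Polynomial.degree_eq_natDegree hmon.ne_zero, hdeg, hW]
      exact Polynomial.degree_sum_fin_lt w
  · apply (finSuccEquiv k N).injective
    rw [map_add, map_mul, map_mul, fse_up, AlgEquiv.apply_symm_apply, AlgEquiv.apply_symm_apply,
      ← hpd, ← hqd]
    linear_combination -hkey

end Pool.Agent.H86.BV
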